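import Pool.Agent.helper62.QU.Spec

/-!
# Project QU (MP_07c750_an), row MEA: invariant functionals which kill the Laplacians
-/

open scoped MatrixGroups ContDiff Topology UpperHalfPlane
open UpperHalfPlane MeasureTheory Filter Set

namespace Pool.Agent.QU

private theorem MEA_inv_add {Γ : Subgroup SL(2, ℝ)} {f g : ℍ → ℝ} (hf : Inv Γ f) (hg : Inv Γ g) :
    Inv Γ (fun z => f z + g z) :=
  ⟨hf.1.add hg.1, fun γ z => by
    show f (γ • z) + g (γ • z) = f z + g z
    rw [hf.2, hg.2]⟩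

private theorem MEA_inv_smul {Γ : Subgroup SL(2, ℝ)} {f : ℍ → ℝ} (c : ℝ) (hf : Inv Γ f) :
    Inv Γ (fun z => c * f z) :=
  ⟨continuous_const.mul hf.1, fun γ z => by
    show c * f (γ • z) = c * f z
    rw [hf.2]⟩

private theorem MEA_inv_one (Γ : Subgroup SL(2, ℝ)) : Inv Γ (fun _ => (1 : ℝ)) :=
  ⟨continuous_const, fun _ _ => rfl⟩

private theorem MEA_step1 (h5 : CVS_stmt) (h6 : CVB_stmt) {fam : ℝ → ℝ → ℝ} (hfam : Fam fam)
    {Γ : Subgroup SL(2, ℝ)} {α : (ℍ → ℝ) → ℝ} (hα : BFun Γ α)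
    (hL : ∀ (κ : ℝ → ℝ) (f : ℍ → ℝ), RK κ → Inv Γ f → α (lap (conv κ f)) = 0)
    {f : ℍ → ℝ} (hf : Inv Γ f) {η η' : ℝ} (h0 : 0 < η') (h1 : η' ≤ η) :
    α (conv (fam η) f) = α (conv (fam η') f) := by
  obtain ⟨-, -, c3, c4, -, -, -, c8⟩ := h6 ℝ
  obtain ⟨ψ, hψ, -, hψ2, -⟩ := hfam.psi η η' h0 h1
  have e1 : lap (conv ψ f) = fun z => conv (fam η') f z + (-1) * conv (fam η) f z := by
    funext z
    rw [(h5 ℝ ψ f hψ hf.1).2.2.2 z,
      c4 (LL ψ) (fun t => 1 * fam η' t + (-1) * fam η t) f z (by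
        intro t ht
        rw [hψ2 t ht]
        ring),
      c3 (fam η') (fam η) f 1 (-1) z (hfam.rk η' h0) (hfam.rk η (h0.trans_le h1)) hf.1]
    simp only [smul_eq_mul, one_mul]
  have e2 := hL ψ f hψ hf
  have i1 := c8 Γ (fam η') f (hfam.rk η' h0) hf
  have i2 := c8 Γ (fam η) f (hfam.rk η (h0.trans_le h1)) hf
  rw [e1, hα.add _ _ i1 (MEA_inv_smul (-1) i2), hα.smul (-1) _ i2] at e2
  linarith

private theorem MEA_small {x C : ℝ} (hx : ∀ ε : ℝ, 0 < ε → x ≤ C * ε) : x ≤ 0 := by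
  by_contra hpos
  push Not at hpos
  have h1 := hx 1 one_pos
  have hC : 0 < C := by linarith
  have h2 := hx (x / (2 * C)) (by positivity)
  have h3 : C * (x / (2 * C)) = x / 2 := by
    field_simp
  linarith

private theorem MEA_step2 (h5 : CVS_stmt) (h6 : CVB_stmt) (h8 : APX_stmt) {fam : ℝ → ℝ → ℝ}
    (hfam : Fam fam) {Γ : Subgroup SL(2, ℝ)} {α : (ℍ → ℝ) → ℝ} (hα : BFun Γ α)
    (hL : ∀ (κ : ℝ → ℝ) (f : ℍ → ℝ), RK κ → Inv Γ f → α (lap (conv κ f)) = 0)
    {f : ℍ → ℝ} (hf : Inv Γ f) (hfu : UniformContinuous f) {η : ℝ} (hη : 0 < η) :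
    α (conv (fam η) f) = α f := by
  obtain ⟨C, hC⟩ := hα.bound
  have c8 := (h6 ℝ).2.2.2.2.2.2.2
  have key : |α (conv (fam η) f) - α f| ≤ 0 := by
    refine MEA_small (C := C) ?_
    intro ε hε
    obtain ⟨η₀, hη₀, h⟩ := (h8 fam hfam).2 f hfu ε hε
    have hm : 0 < min η η₀ := lt_min hη hη₀
    have h2 := h (min η η₀) hm (min_le_right _ _)
    rw [MEA_step1 h5 h6 hfam hα hL hf hm (min_le_left _ _)]
    have i1 := c8 Γ (fam (min η η₀)) f (hfam.rk _ hm) hf
    have e1 : α (fun z => conv (fam (min η η₀)) f z + (-1) * f z) =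
        α (conv (fam (min η η₀)) f) - α f := by
      rw [hα.add _ _ i1 (MEA_inv_smul (-1) hf), hα.smul (-1) _ hf]
      ring
    rw [← e1]
    refine hC _ ε (MEA_inv_add i1 (MEA_inv_smul (-1) hf)) fun z => ?_
    have := h2 z
    rwa [show conv (fam (min η η₀)) f z + (-1) * f z = conv (fam (min η η₀)) f z - f z by ring]
  have := abs_nonneg (α (conv (fam η) f) - α f)
  have h0 : |α (conv (fam η) f) - α f| = 0 := le_antisymm key this
  rw [abs_eq_zero] at h0
  linarith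

/-- a maximum principle -/
private theorem MEA_max (h1 : TTT_stmt) (h2 : INV_stmt) (h4 : LAK_stmt) {fam : ℝ → ℝ → ℝ}
    (hfam : Fam fam) {p : ℍ → ℝ} (hp : Continuous p) (z₀ : ℍ) (hz₀ : ∀ z, p z ≤ p z₀)
    (hfix : ∀ z, conv (fam 1) p z = p z) : ∀ z, p z = p z₀ := by
  have : (volume : Measure ℍ).IsOpenPosMeasure := h2.2.2.1
  obtain ⟨t1, -, t3, -, t5, -⟩ := h1
  have hk : RK (fam 1) := hfam.rk 1 one_pos
  have hcont : ∀ z : ℍ, Continuous fun w : ℍ => fam 1 (tt z w) := fun z =>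
    hk.smooth.continuous.comp (t5.comp (continuous_const.prodMk continuous_id))
  have hcs : ∀ z : ℍ, HasCompactSupport fun w : ℍ => fam 1 (tt z w) := by
    intro z
    have := h4.2.2.1 (fam 1) z hk
    have e : (fun w : ℍ => fam 1 (tt z w)) = fun w => fam 1 (tt w z) := by
      funext w
      rw [t3]
    rw [e]
    exact this
  have hloc : ∀ z, p z = p z₀ → ∀ w, tt z w < 1 → p w = p z₀ := by
    intro z hz w hw
    have hg : Continuous fun w : ℍ => fam 1 (tt z w) * (p z₀ - p w) :=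
      (hcont z).mul (continuous_const.sub hp)
    have hgs : HasCompactSupport fun w : ℍ => fam 1 (tt z w) * (p z₀ - p w) :=
      (hcs z).mul_right
    have hgi : Integrable (fun w : ℍ => fam 1 (tt z w) * (p z₀ - p w)) :=
      hg.integrable_of_hasCompactSupport hgs
    have hgn : 0 ≤ fun w : ℍ => fam 1 (tt z w) * (p z₀ - p w) := by
      intro w
      exact mul_nonneg (hfam.nonneg 1 one_pos _) (sub_nonneg.2 (hz₀ w))
    have i1 : Integrable (fun w : ℍ => fam 1 (tt z w)) :=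
      (hcont z).integrable_of_hasCompactSupport (hcs z)
    have i2 : Integrable (fun w : ℍ => fam 1 (tt z w) * p w) :=
      ((hcont z).mul hp).integrable_of_hasCompactSupport (hcs z).mul_right
    have h0 : ∫ w : ℍ, fam 1 (tt z w) * (p z₀ - p w) = 0 := by
      have e1 : (fun w : ℍ => fam 1 (tt z w) * (p z₀ - p w)) =
          fun w => fam 1 (tt z w) * p z₀ - fam 1 (tt z w) * p w := by
        funext w
        ring
      rw [e1, integral_sub (i1.mul_const _) i2, integral_mul_const, hfam.mass 1 one_pos z]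
      have e2 := hfix z
      unfold conv at e2
      simp only [smul_eq_mul] at e2
      rw [e2, hz]
      ring
    rw [integral_eq_zero_iff_of_nonneg hgn hgi] at h0
    have h3 : (fun w : ℍ => fam 1 (tt z w) * (p z₀ - p w)) = fun _ => (0 : ℝ) :=
      (hg.ae_eq_iff_eq volume continuous_const).1 h0
    have h4 := congrFun h3 w
    have t0 : 0 ≤ tt z w := by
      rw [t1]
      linarith [Real.one_le_cosh (dist z w)]
    have h5 := hfam.pos 1 one_pos (tt z w) t0 hw
    rcases mul_eq_zero.1 h4 with h6 | h6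
    · exact absurd h6 h5.ne'
    · linarith
  have hcl : IsClosed {z | p z = p z₀} := isClosed_eq hp continuous_const
  have hop : IsOpen {z | p z = p z₀} := by
    rw [isOpen_iff_mem_nhds]
    intro z hz
    have h6 : {w : ℍ | tt z w < 1} ∈ 𝓝 z := by
      have hc : Continuous fun w : ℍ => tt z w :=
        t5.comp (continuous_const.prodMk continuous_id)
      refine (isOpen_lt hc continuous_const).mem_nhds ?_
      show tt z z < 1
      rw [t1, dist_self, Real.cosh_zero]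
      norm_num
    exact mem_of_superset h6 fun w hw => hloc z hz w hw
  have huniv : {z | p z = p z₀} = Set.univ :=
    IsClopen.eq_univ ⟨hcl, hop⟩ ⟨z₀, rfl⟩
  intro z
  have : z ∈ {z | p z = p z₀} := by
    rw [huniv]
    trivial
  exact this

theorem MEA (h1 : TTT_stmt) (h2 : INV_stmt) (h3 : CA1_stmt) (h4 : LAK_stmt) (h5 : CVS_stmt)
    (h6 : CVB_stmt) (h7 : KFM_stmt) (h8 : APX_stmt) (h9 : DOB_stmt) (h10 : BDD_stmt)
    (h11 : SYC_stmt) (h12 : FUB_stmt) : MEA_stmt := by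
  intro Γ F α hΓ hF hα hL f hf
  obtain ⟨fam, hfam⟩ := h7
  have c8 := (h6 ℝ).2.2.2.2.2.2.2
  have hk : RK (fam 1) := hfam.rk 1 one_pos
  have hBα : ∀ g, Inv Γ g → α (conv (fam 1) g) = α g := fun g hg =>
    MEA_step2 h5 h6 h8 hfam hα hL hg (h10 Γ F g hΓ hF hg).2.1 one_pos
  obtain ⟨p, hp, hpα⟩ := h12 Γ F (fam 1) α hΓ hF hk hα
  have hα' : ∀ g, Inv Γ g → α g = ∫ z in F, p z * g z := fun g hg => by
    rw [← hBα g hg, hpα g hg]
  obtain ⟨-, -, -, hfin, -⟩ := h9 Γ F hΓ hF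
  have hint : ∀ g h, Inv Γ g → Inv Γ h → IntegrableOn (fun z => g z * h z) F volume := by
    intro g h hg hh
    obtain ⟨m, hm⟩ := (h10 Γ F g hΓ hF hg).1
    obtain ⟨m', hm'⟩ := (h10 Γ F h hΓ hF hh).1
    refine Measure.integrableOn_of_bounded (M := |m| * |m'|) hfin.ne
      (hg.1.mul hh.1).aestronglyMeasurable ?_
    refine Eventually.of_forall fun z => ?_
    rw [Real.norm_eq_abs, abs_mul]
    exact mul_le_mul ((hm z).trans (le_abs_self m)) ((hm' z).trans (le_abs_self m'))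
      (abs_nonneg _) (abs_nonneg _)
  have hBp : Inv Γ (conv (fam 1) p) := c8 Γ (fam 1) p hk hp
  have hort : ∀ g, Inv Γ g → ∫ z in F, conv (fam 1) p z * g z = ∫ z in F, p z * g z := by
    intro g hg
    rw [h11 Γ F (fam 1) p g hΓ hF hk hp hg, ← hα' _ (c8 Γ (fam 1) g hk hg), hBα g hg, hα' g hg]
  have hd : Inv Γ (fun z => conv (fam 1) p z + (-1) * p z) :=
    MEA_inv_add hBp (MEA_inv_smul (-1) hp)
  have hsq : ∫ z in F, (conv (fam 1) p z + (-1) * p z) ^ 2 = 0 := by
    have e1 : (fun z => (conv (fam 1) p z + (-1) * p z) ^ 2) =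
        fun z => conv (fam 1) p z * (conv (fam 1) p z + (-1) * p z) -
          p z * (conv (fam 1) p z + (-1) * p z) := by
      funext z
      ring
    rw [e1, integral_sub (hint _ _ hBp hd) (hint _ _ hp hd), hort _ hd, sub_self]
  have hfix : ∀ z, conv (fam 1) p z = p z := by
    intro z
    have := (h10 Γ F _ hΓ hF hd).2.2.2 hsq z
    linarith
  obtain ⟨z₀, hz₀⟩ := (h10 Γ F p hΓ hF hp).2.2.1
  have hconst := MEA_max h1 h2 h4 hfam hp.1 z₀ hz₀ hfix
  have hval : ∀ g, Inv Γ g → α g = p z₀ * ∫ z in F, g z := by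
    intro g hg
    rw [hα' g hg, ← integral_const_mul]
    refine integral_congr_ae (Eventually.of_forall fun z => ?_)
    show p z * g z = p z₀ * g z
    rw [hconst z]
  rw [hval f hf, hval _ (MEA_inv_one Γ), setIntegral_const]
  simp only [smul_eq_mul, mul_one, Measure.real]
  ring

end Pool.Agent.QU
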